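import Mathlib
import Pool.Agent.N136.OW.SVStm

set_option autoImplicit false

/-!
Project GW (helper176), subtask 8725 (LF), by helper832: upper bound sieve for `k` linear forms in one
variable.  After `Pool.Agent.N441.SH.TUA` (helper441, after helper99).
-/

namespace Pool.Agent.N832.GW

open Finset
open Pool.Agent.N136.OW (S_SV2)

/-- the class modulo `l` -/
def cc (a s : ℤ) (l : ℕ) : ℕ := (1 - (a : ZMod l) * (s : ZMod l)⁻¹).val

lemma cc_lt {a s : ℤ} {l : ℕ} (hl : 0 < l) : cc a s l < l := by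
  have : NeZero l := ⟨hl.ne'⟩
  exact ZMod.val_lt _

lemma cc_iff {a s : ℤ} {l u : ℕ} (hl : l.Prime) (hs : ¬ (l : ℤ) ∣ s) :
    (l : ℤ) ∣ a + s * u ↔ (u + 1) % l = cc a s l := by
  haveI : Fact l.Prime := ⟨hl⟩
  have hs0 : (s : ZMod l) ≠ 0 := by
    rwa [Ne, ZMod.intCast_zmod_eq_zero_iff_dvd]
  have h1 : (s : ZMod l) * (s : ZMod l)⁻¹ = 1 := mul_inv_cancel₀ hs0
  rw [← ZMod.intCast_zmod_eq_zero_iff_dvd]
  push_cast
  unfold cc
  rw [← ZMod.val_natCast]
  push_cast
  constructor
  · intro h
    have h3 : (u : ZMod l) + 1 = 1 - a * (s : ZMod l)⁻¹ := by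
      linear_combination (s : ZMod l)⁻¹ * h - (u : ZMod l) * h1
    rw [h3]
  · intro h
    have h3 : (u : ZMod l) + 1 = 1 - a * (s : ZMod l)⁻¹ := ZMod.val_injective l h
    linear_combination (s : ZMod l) * h3 - (a : ZMod l) * h1

lemma coinc {a s a' s' : ℤ} {l : ℕ} (hl : l.Prime) (hs : ¬ (l : ℤ) ∣ s) (hs' : ¬ (l : ℤ) ∣ s')
    (h : cc a s l = cc a' s' l) : (l : ℤ) ∣ a * s' - a' * s := by
  haveI : Fact l.Prime := ⟨hl⟩
  have h0 : (s : ZMod l) ≠ 0 := by
    rwa [Ne, ZMod.intCast_zmod_eq_zero_iff_dvd]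
  have h0' : (s' : ZMod l) ≠ 0 := by
    rwa [Ne, ZMod.intCast_zmod_eq_zero_iff_dvd]
  have h3 : (1 - (a : ZMod l) * (s : ZMod l)⁻¹) = 1 - (a' : ZMod l) * (s' : ZMod l)⁻¹ :=
    ZMod.val_injective l h
  have h1 := mul_inv_cancel₀ h0
  have h1' := mul_inv_cancel₀ h0'
  rw [← ZMod.intCast_zmod_eq_zero_iff_dvd]
  push_cast
  linear_combination (-((s : ZMod l) * s')) * h3 - (a : ZMod l) * s' * h1 + (a' : ZMod l) * s * h1'

lemma card_image_ge (F : Finset ℕ) (f : ℕ → ℕ) : F.card ≤ (F.image f).card +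
    (F.filter (fun q => ∃ p ∈ F, p < q ∧ f p = f q)).card := by
  classical
  have h1 : (F.filter (fun q => ¬ ∃ p ∈ F, p < q ∧ f p = f q)).card ≤ (F.image f).card := by
    apply Finset.card_le_card_of_injOn f
    · intro q hq
      rw [mem_coe, mem_filter] at hq
      exact mem_coe.2 (mem_image_of_mem _ hq.1)
    · intro q hq q' hq' h
      rw [mem_coe, mem_filter] at hq hq'
      rcases lt_trichotomy q q' with h1 | h1 | h1
      · exact absurd ⟨q, hq.1, h1, h⟩ hq'.2
      · exact h1
      · exact absurd ⟨q', hq'.1, h1, h.symm⟩ hq.2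
  have h2 := Finset.card_filter_add_card_filter_not (s := F) (fun q => ∃ p ∈ F, p < q ∧ f p = f q)
  omega

/-- the prime factors `> y` of a number -/
lemma sum_primes {y N D : ℕ} {X : ℝ} (hy : 2 ≤ y) (hD : 0 < D) (hX : Real.log D ≤ X) :
    ∑ l ∈ ((Ioc y N).filter Nat.Prime).filter (fun l => l ∣ D), 1 / (l : ℝ) ≤
      X / (Real.log y * y) := by
  obtain ⟨S, hS⟩ : ∃ S, S = ((Ioc y N).filter Nat.Prime).filter (fun l => l ∣ D) := ⟨_, rfl⟩
  rw [← hS]
  have hmem : ∀ l ∈ S, y < l ∧ l.Prime ∧ l ∣ D := by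
    intro l hl
    rw [hS, mem_filter, mem_filter, mem_Ioc] at hl
    exact ⟨hl.1.1.1, hl.1.2, hl.2⟩
  have hyR : (2 : ℝ) ≤ y := by exact_mod_cast hy
  have hly : 0 < Real.log y := Real.log_pos (by linarith)
  have h1 : ∏ l ∈ S, l ∣ D := Finset.prod_primes_dvd D (fun l hl => (hmem l hl).2.1.prime)
    fun l hl => (hmem l hl).2.2
  have h2 : y ^ S.card ≤ D := by
    refine le_trans ?_ (Nat.le_of_dvd hD h1)
    rw [← Finset.prod_const]
    exact Finset.prod_le_prod' fun l hl => (hmem l hl).1.le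
  have h3 : S.card * Real.log y ≤ X := by
    refine le_trans ?_ hX
    rw [← Real.log_pow]
    exact Real.log_le_log (by positivity) (by exact_mod_cast h2)
  calc ∑ l ∈ S, 1 / (l : ℝ) ≤ ∑ _l ∈ S, 1 / (y : ℝ) := by
        refine Finset.sum_le_sum fun l hl => ?_
        exact one_div_le_one_div_of_le (by linarith) (by exact_mod_cast (hmem l hl).1.le)
    _ = S.card * (1 / (y : ℝ)) := by rw [Finset.sum_const, nsmul_eq_mul]
    _ ≤ X / (Real.log y * y) := by
        rw [le_div_iff₀ (by positivity)]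
        have : (S.card : ℝ) * (1 / (y : ℝ)) * (Real.log y * y) = S.card * Real.log y := by
          field_simp
        rw [this]
        exact h3

open Classical in
theorem lf0 (h : S_SV2) : ∀ B c : ℝ, 0 < c → ∃ C : ℝ, 1 ≤ C ∧ ∃ P : ℕ, ∀ x ≥ P, ∀ F : Finset ℕ,
    F.Nonempty → (F.card : ℝ) ^ 2 ≤ Real.log x → ∀ a s : ℕ → ℤ,
    (∀ p ∈ F, s p ≠ 0 ∧ ((|a p| : ℤ) : ℝ) ≤ Real.exp (B * x) ∧
      ((|s p| : ℤ) : ℝ) ≤ Real.exp (B * x)) →
    (∀ p ∈ F, ∀ q ∈ F, p < q → a p * s q ≠ a q * s p) → ∀ U : ℕ, c * x ≤ Real.log U →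
    (((range U).filter (fun u : ℕ => ∀ p ∈ F, ∀ l : ℕ, l.Prime → 2 * x < l → l ≤ U →
      ¬ (l : ℤ) ∣ a p + s p * u)).card : ℝ) ≤ (C * F.card * (Real.log x / x)) ^ F.card * U := by
  intro B0 c hc
  obtain ⟨C, hC, hSV'⟩ := h
  obtain ⟨D, hD, hSV⟩ := hSV' C le_rfl
  obtain ⟨B, hB0, hB1⟩ : ∃ B : ℝ, B0 ≤ B ∧ 1 ≤ B := ⟨max B0 1, le_max_left _ _, le_max_right _ _⟩
  have h1 : (fun x : ℝ => Real.log x ^ 2) =o[Filter.atTop] fun x : ℝ => x :=
    Real.isLittleO_pow_log_id_atTop
  have h2 := h1.bound (c := c / (2 * C)) (by positivity)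
  obtain ⟨x1, hx1⟩ := Filter.eventually_atTop.1 ((tendsto_natCast_atTop_atTop (R := ℝ)).eventually h2)
  obtain ⟨Cf, hCf1, hCf2⟩ : ∃ Cf : ℝ, 1 ≤ Cf ∧ 2 * D * Real.exp (3 * B) / c ≤ Cf :=
    ⟨max 1 (2 * D * Real.exp (3 * B) / c), le_max_left _ _, le_max_right _ _⟩
  refine ⟨Cf, hCf1, x1 + 16, ?_⟩
  intro x hx F hF hk a s has hnd U hU
  have hxl : 2 * C * Real.log x ^ 2 ≤ c * x := by
    have h3 := hx1 x (by omega)
    rw [Real.norm_eq_abs, Real.norm_eq_abs, abs_of_nonneg (by positivity : 0 ≤ Real.log (x : ℝ) ^ 2),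
      abs_of_nonneg (Nat.cast_nonneg (α := ℝ) x)] at h3
    calc 2 * C * Real.log x ^ 2 ≤ 2 * C * (c / (2 * C) * x) := by gcongr
      _ = c * x := by field_simp
  obtain ⟨k, hkd⟩ : ∃ k, k = F.card := ⟨_, rfl⟩
  rw [← hkd] at hk ⊢
  have hk1 : 1 ≤ k := by
    rw [hkd]
    exact Finset.card_pos.2 hF
  have hk1R : (1 : ℝ) ≤ k := by exact_mod_cast hk1
  have hxR : (16 : ℝ) ≤ x := by exact_mod_cast (by omega : 16 ≤ x)
  have hx0 : (0 : ℝ) < x := by linarith
  have hlx1 : 1 ≤ Real.log x := by
    refine le_trans ?_ hk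
    nlinarith
  have hlx : 0 < Real.log x := by linarith
  have hkl : (k : ℝ) ≤ Real.log x := by nlinarith
  have hl2x : Real.log ((2 * x : ℕ) : ℝ) ≤ 2 * Real.log x := by
    push_cast
    rw [two_mul (Real.log (x : ℝ)), ← Real.log_mul (by linarith) (by linarith)]
    exact Real.log_le_log (by linarith) (by nlinarith)
  have hl2x' : Real.log x ≤ Real.log ((2 * x : ℕ) : ℝ) := by
    push_cast
    exact Real.log_le_log (by linarith) (by linarith)
  have hl2x0 : 0 < Real.log ((2 * x : ℕ) : ℝ) := by linarith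
  have hlU : 0 < Real.log U := lt_of_lt_of_le (by positivity) hU
  have hU0 : U ≠ 0 := by
    rintro rfl
    simp at hlU
  have hUR : (0 : ℝ) < U := by exact_mod_cast Nat.pos_of_ne_zero hU0
  -- the good integers
  obtain ⟨Gd, hGd⟩ : ∃ Gd : Finset ℕ, Gd = (range U).filter (fun u : ℕ => ∀ p ∈ F, ∀ l : ℕ,
    l.Prime → 2 * x < l → l ≤ U → ¬ (l : ℤ) ∣ a p + s p * u) := ⟨_, rfl⟩
  rw [← hGd]
  obtain ⟨A, hA⟩ : ∃ A : Finset ℕ, A = Gd.image (fun m => m + 1) := ⟨_, rfl⟩
  have hAcard : Gd.card = A.card := by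
    rw [hA, Finset.card_image_of_injective _ (add_left_injective 1)]
  obtain ⟨M, hM⟩ : ∃ M : ℝ, M = 3 * B * x / (Real.log ((2 * x : ℕ) : ℝ) * ((2 * x : ℕ) : ℝ)) :=
    ⟨_, rfl⟩
  have h2xR : (0 : ℝ) < ((2 * x : ℕ) : ℝ) := by push_cast; linarith
  have hM0 : 0 ≤ M := by
    rw [hM]
    positivity
  have hBx : 16 ≤ B * x := by nlinarith
  have hexp : Real.exp (B0 * x) ≤ Real.exp (B * x) := by
    apply Real.exp_le_exp.2
    nlinarith
  have hmain := hSV k U (2 * x) (3 * B)
    (fun l => (F.filter (fun p => ¬ (l : ℤ) ∣ s p)).image (fun p => cc (a p) (s p) l)) A hk1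
    (by omega)
    (by
      have h1 : (k : ℝ) ^ 2 ≤ 2 * x := by
        have := Real.log_le_sub_one_of_pos (by linarith : (0 : ℝ) < x)
        linarith
      exact_mod_cast h1)
    (by
      calc C * k * Real.log ((2 * x : ℕ) : ℝ) ≤ C * Real.log x * (2 * Real.log x) := by
            gcongr
        _ = 2 * C * Real.log x ^ 2 := by ring
        _ ≤ c * x := hxl
        _ ≤ Real.log U := hU)
    (by
      intro n hn
      rw [hA, mem_image] at hn
      obtain ⟨m, hm, rfl⟩ := hn
      rw [hGd, mem_filter, mem_range] at hm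
      rw [mem_Icc]
      omega)
    (by
      intro l hl hlx
      refine ⟨fun c hc => ?_, ?_⟩
      · rw [mem_image] at hc
        obtain ⟨p, _, rfl⟩ := hc
        rw [mem_range]
        exact cc_lt hl.pos
      · rw [hkd]
        exact Finset.card_image_le.trans (Finset.card_filter_le _ _))
    (by
      intro n hn l hl hlx hsmall hmem
      rw [mem_image] at hmem
      obtain ⟨p, hp, hcl⟩ := hmem
      rw [mem_filter] at hp
      rw [hA, mem_image] at hn
      obtain ⟨m, hm, rfl⟩ := hn
      rw [hGd, mem_filter, mem_range] at hm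
      have hd := (cc_iff (a := a p) (u := m) hl hp.2).2 hcl.symm
      refine hm.2 p hp.1 l hl hlx ?_ hd
      have hlR : (0 : ℝ) < l := by exact_mod_cast hl.pos
      have hll : 0 ≤ Real.log l := Real.log_nonneg (by exact_mod_cast hl.one_lt.le)
      have h8 : Real.log l ≤ Real.log U := by
        refine le_trans ?_ hsmall
        have : 1 ≤ C * k := by nlinarith
        nlinarith
      have h9 := (Real.log_le_log_iff hlR hUR).1 h8
      exact_mod_cast h9)
    (by
      -- the density
      have step : ∀ l ∈ (Ioc (2 * x) U).filter Nat.Prime,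
          ((k : ℝ) - (((F.filter (fun p => ¬ (l : ℤ) ∣ s p)).image
            (fun p => cc (a p) (s p) l)).card : ℝ)) / l ≤
          (∑ p ∈ F, if l ∣ (s p).natAbs then 1 / (l : ℝ) else 0) +
          ∑ q ∈ F, ∑ p ∈ F.filter (fun p => p < q),
            if l ∣ (a p * s q - a q * s p).natAbs then 1 / (l : ℝ) else 0 := by
        intro l hl
        rw [mem_filter, mem_Ioc] at hl
        have lR : (0 : ℝ) < l := by exact_mod_cast hl.2.pos
        have h1 := card_image_ge (F.filter (fun p => ¬ (l : ℤ) ∣ s p)) (fun p => cc (a p) (s p) l)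
        have h0 := Finset.card_filter_add_card_filter_not (s := F) (fun p => (l : ℤ) ∣ s p)
        have h1' : (F.filter (fun p => ¬ (l : ℤ) ∣ s p)).card ≤
            ((F.filter (fun p => ¬ (l : ℤ) ∣ s p)).image (fun p => cc (a p) (s p) l)).card +
            (F.filter (fun q => ∃ p ∈ F, p < q ∧ (l : ℤ) ∣ a p * s q - a q * s p)).card := by
          refine h1.trans (Nat.add_le_add_left (Finset.card_le_card ?_) _)
          intro q hq
          rw [mem_filter, mem_filter] at hq
          obtain ⟨⟨hqF, hqs⟩, p, hp, hpq, hcc⟩ := hq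
          rw [mem_filter] at hp
          rw [mem_filter]
          exact ⟨hqF, p, hp.1, hpq, coinc hl.2 hp.2 hqs hcc⟩
        have h2 : ((k : ℝ) - (((F.filter (fun p => ¬ (l : ℤ) ∣ s p)).image
            (fun p => cc (a p) (s p) l)).card : ℝ)) ≤
            ((F.filter (fun p => (l : ℤ) ∣ s p)).card : ℝ) +
            ((F.filter (fun q => ∃ p ∈ F, p < q ∧ (l : ℤ) ∣ a p * s q - a q * s p)).card : ℝ) := by
          rw [sub_le_iff_le_add]
          rw [← hkd] at h0
          have : k ≤ (F.filter (fun p => (l : ℤ) ∣ s p)).card +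
            (F.filter (fun q => ∃ p ∈ F, p < q ∧ (l : ℤ) ∣ a p * s q - a q * s p)).card +
            ((F.filter (fun p => ¬ (l : ℤ) ∣ s p)).image (fun p => cc (a p) (s p) l)).card := by
            omega
          exact_mod_cast this
        rw [div_le_iff₀ lR]
        refine h2.trans ?_
        rw [add_mul]
        apply add_le_add
        · rw [Finset.card_eq_sum_ones, Nat.cast_sum, Finset.sum_filter, Finset.sum_mul]
          refine Finset.sum_le_sum fun p hp => ?_
          by_cases h3 : (l : ℤ) ∣ s p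
          · rw [if_pos h3, if_pos (Int.natCast_dvd.1 h3), Nat.cast_one, one_div,
              inv_mul_cancel₀ lR.ne']
          · rw [if_neg h3]
            split_ifs
            · positivity
            · rw [zero_mul]
        · rw [Finset.card_eq_sum_ones, Nat.cast_sum, Finset.sum_filter, Finset.sum_mul]
          refine Finset.sum_le_sum fun q hq => ?_
          rw [Finset.sum_mul]
          have hnn : ∀ p ∈ F.filter (fun p => p < q), 0 ≤
              (if l ∣ (a p * s q - a q * s p).natAbs then 1 / (l : ℝ) else 0) * l := by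
            intro p _
            split_ifs
            · positivity
            · rw [zero_mul]
          by_cases h3 : ∃ p ∈ F, p < q ∧ (l : ℤ) ∣ a p * s q - a q * s p
          · rw [if_pos h3]
            obtain ⟨p, hp, hpq, hd⟩ := h3
            have hd' := Int.natCast_dvd.1 hd
            refine le_trans ?_ (Finset.single_le_sum hnn (mem_filter.2 ⟨hp, hpq⟩))
            rw [if_pos hd', Nat.cast_one, one_div, inv_mul_cancel₀ lR.ne']
          · rw [if_neg h3]
            exact Finset.sum_nonneg hnn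
      refine (Finset.sum_le_sum step).trans ?_
      rw [Finset.sum_add_distrib]
      have part1 : ∑ l ∈ (Ioc (2 * x) U).filter Nat.Prime,
          (∑ p ∈ F, if l ∣ (s p).natAbs then 1 / (l : ℝ) else 0) ≤ k * M := by
        rw [Finset.sum_comm]
        have h1 : ∀ p ∈ F, ∑ l ∈ (Ioc (2 * x) U).filter Nat.Prime,
            (if l ∣ (s p).natAbs then 1 / (l : ℝ) else 0) ≤ M := by
          intro p hp
          obtain ⟨g1, g2, g3⟩ := has p hp
          rw [← Finset.sum_filter, hM]
          have hpos : 0 < (s p).natAbs := Int.natAbs_pos.2 g1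
          refine sum_primes (by omega) hpos ?_
          have h3 : (((s p).natAbs : ℕ) : ℝ) ≤ Real.exp (B * x) := by
            rw [Nat.cast_natAbs]
            exact g3.trans hexp
          have h4 := Real.log_le_log (by exact_mod_cast hpos) h3
          rw [Real.log_exp] at h4
          nlinarith
        refine (Finset.sum_le_sum h1).trans ?_
        rw [Finset.sum_const, nsmul_eq_mul, ← hkd]
      have part2 : ∑ l ∈ (Ioc (2 * x) U).filter Nat.Prime,
          (∑ q ∈ F, ∑ p ∈ F.filter (fun p => p < q),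
            if l ∣ (a p * s q - a q * s p).natAbs then 1 / (l : ℝ) else 0) ≤ k * (k * M) := by
        rw [Finset.sum_comm]
        have inner : ∀ q ∈ F, ∑ l ∈ (Ioc (2 * x) U).filter Nat.Prime,
            ∑ p ∈ F.filter (fun p => p < q),
              (if l ∣ (a p * s q - a q * s p).natAbs then 1 / (l : ℝ) else 0) ≤ k * M := by
          intro q hq
          rw [Finset.sum_comm]
          have h1 : ∀ p ∈ F.filter (fun p => p < q), ∑ l ∈ (Ioc (2 * x) U).filter Nat.Prime,
              (if l ∣ (a p * s q - a q * s p).natAbs then 1 / (l : ℝ) else 0) ≤ M := by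
            intro p hp
            rw [mem_filter] at hp
            obtain ⟨g1, g2, g3⟩ := has p hp.1
            obtain ⟨g4, g5, g6⟩ := has q hq
            rw [← Finset.sum_filter, hM]
            have hne : a p * s q - a q * s p ≠ 0 := sub_ne_zero.2 (hnd p hp.1 q hq hp.2)
            have hpos : 0 < (a p * s q - a q * s p).natAbs := Int.natAbs_pos.2 hne
            refine sum_primes (by omega) hpos ?_
            have h3 : (((a p * s q - a q * s p).natAbs : ℕ) : ℝ) ≤
                2 * Real.exp (2 * (B * x)) := by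
              rw [Nat.cast_natAbs]
              push_cast at g2 g3 g5 g6 ⊢
              have w1 : |(a p : ℝ) * s q - a q * s p| ≤ |(a p : ℝ)| * |(s q : ℝ)| +
                  |(a q : ℝ)| * |(s p : ℝ)| := by
                refine (abs_sub _ _).trans (le_of_eq ?_)
                rw [abs_mul, abs_mul]
              have w2 : |(a p : ℝ)| * |(s q : ℝ)| ≤ Real.exp (B * x) * Real.exp (B * x) :=
                mul_le_mul (g2.trans hexp) (g6.trans hexp) (abs_nonneg _) (Real.exp_pos _).le
              have w3 : |(a q : ℝ)| * |(s p : ℝ)| ≤ Real.exp (B * x) * Real.exp (B * x) :=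
                mul_le_mul (g5.trans hexp) (g3.trans hexp) (abs_nonneg _) (Real.exp_pos _).le
              have w4 : Real.exp (2 * (B * x)) = Real.exp (B * x) * Real.exp (B * x) := by
                rw [two_mul, Real.exp_add]
              linarith
            have h4 := Real.log_le_log (by exact_mod_cast hpos) h3
            rw [Real.log_mul (by norm_num) (Real.exp_pos _).ne', Real.log_exp] at h4
            have h5 : Real.log 2 ≤ 1 := by
              have := Real.log_two_lt_d9
              linarith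
            nlinarith
          refine (Finset.sum_le_sum h1).trans ?_
          rw [Finset.sum_const, nsmul_eq_mul]
          have h2 : ((F.filter (fun p => p < q)).card : ℝ) ≤ k := by
            rw [hkd]
            exact_mod_cast Finset.card_le_card (Finset.filter_subset _ _)
          exact mul_le_mul_of_nonneg_right h2 hM0
        refine (Finset.sum_le_sum inner).trans ?_
        rw [Finset.sum_const, nsmul_eq_mul, ← hkd]
      refine (add_le_add part1 part2).trans ?_
      have h3 : (k : ℝ) * M + k * (k * M) ≤ 2 * (k : ℝ) ^ 2 * M := by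
        have : (k : ℝ) ≤ (k : ℝ) ^ 2 := by nlinarith
        nlinarith
      refine h3.trans ?_
      have h4 : 2 * (k : ℝ) ^ 2 * M = (k : ℝ) ^ 2 / Real.log ((2 * x : ℕ) : ℝ) * (3 * B) := by
        rw [hM]
        have : ((2 * x : ℕ) : ℝ) = 2 * x := by push_cast; rfl
        generalize Real.log ((2 * x : ℕ) : ℝ) = w at hl2x0 ⊢
        rw [this]
        field_simp
      rw [h4]
      have h5 : (k : ℝ) ^ 2 / Real.log ((2 * x : ℕ) : ℝ) ≤ 1 := by
        rw [div_le_one hl2x0]
        linarith
      nlinarith)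
  rw [hAcard]
  refine hmain.trans ?_
  have hbk : Real.exp (3 * B) ≤ Real.exp (3 * B) ^ k :=
    le_self_pow₀ (Real.one_le_exp (by linarith)) (by omega)
  have hfrac : (k : ℝ) * Real.log ((2 * x : ℕ) : ℝ) / Real.log U ≤ 2 / c * k * (Real.log x / x) := by
    rw [div_le_iff₀ hlU]
    calc (k : ℝ) * Real.log ((2 * x : ℕ) : ℝ) ≤ k * (2 * Real.log x) := by gcongr
      _ = 2 / c * k * (Real.log x / x) * (c * x) := by
          field_simp
      _ ≤ 2 / c * k * (Real.log x / x) * Real.log U := by gcongr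
  have hfr0 : 0 ≤ (k : ℝ) * Real.log ((2 * x : ℕ) : ℝ) / Real.log U := by positivity
  calc D ^ k * Real.exp (3 * B) * (k * Real.log ((2 * x : ℕ) : ℝ) / Real.log U) ^ k * U
      ≤ D ^ k * Real.exp (3 * B) ^ k * (2 / c * k * (Real.log x / x)) ^ k * U := by
        gcongr
    _ = (2 * D * Real.exp (3 * B) / c * k * (Real.log x / x)) ^ k * U := by
        rw [← mul_pow, ← mul_pow]
        congr 2
        ring
    _ ≤ (Cf * k * (Real.log x / x)) ^ k * U := by
        gcongr

end Pool.Agent.N832.GW
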