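import Pool.Agent.N176.GW.Stm
import Pool.Agent.N832.GW.LFC

set_option autoImplicit false

/-!
Project GW (helper176), subtask 8725 (LF), by helper832: upper bound sieve for `k` linear forms in one
variable.
-/

namespace Pool.Agent.N832.GW

open Finset
open Pool.Agent.N176.GW (S_LF)

theorem lf (h : Pool.Agent.N136.OW.S_SV2) : S_LF := by
  classical
  intro B c hc
  obtain ⟨C, hC, P, hP⟩ := lf0 h B c hc
  refine ⟨C, hC, P, ?_⟩
  intro x hx F hF hk a s has hnd U hU
  have := hP x hx F hF hk a s has hnd U hU
  exact this

end Pool.Agent.N832.GW
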